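import Pool.Agent.H48.RA.All2

/-!
Rectifiability of sets of finite `n`-dimensional Hausdorff measure with `L²`-bounded
`n`-dimensional Riesz transform in `ℝ^d`, without any density hypothesis, for `n ≤ 13` and every
`d`, and for `d ≤ n + 13` and every `n`.
-/

set_option autoImplicit false

open MeasureTheory Filter Topology Metric Set

namespace Pool.Agent.Results.MP_6a587c_an.LowDimensionOrCodimension

/-- For `0 < n < d` with `n ≤ 13` or `d ≤ n + 13` and compact `E ⊆ ℝ^d` with `0 < H^n(E) < ∞`: if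
the truncated `n`-dimensional Riesz transforms of `H^n` restricted to `E` are uniformly bounded on
`L²`, then `H^n`-almost all of `E` is covered by countably many Lipschitz images of `ℝ^n`. -/
theorem result :
    ∀ (d n : ℕ), 0 < n → n < d → (n ≤ 13 ∨ d ≤ n + 13) →
    ∀ E : Set (EuclideanSpace ℝ (Fin d)), IsCompact E →
      0 < Measure.hausdorffMeasure (n : ℝ) E →
      Measure.hausdorffMeasure (n : ℝ) E < ⊤ →
      (∃ C : NNReal, ∀ ε : ℝ, 0 < ε → ∀ f : EuclideanSpace ℝ (Fin d) → ℝ,
        MemLp f 2 ((Measure.hausdorffMeasure (n : ℝ)).restrict E) →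
        ∫⁻ x, ‖∫ y in {y | ε < dist x y},
              (f y * (‖x - y‖ ^ (n + 1))⁻¹) • (x - y)
                ∂((Measure.hausdorffMeasure (n : ℝ)).restrict E)‖ₑ ^ 2
            ∂((Measure.hausdorffMeasure (n : ℝ)).restrict E)
          ≤ (C : ENNReal) * ∫⁻ x, ‖f x‖ₑ ^ 2
            ∂((Measure.hausdorffMeasure (n : ℝ)).restrict E)) →
      ∃ g : ℕ → EuclideanSpace ℝ (Fin n) → EuclideanSpace ℝ (Fin d),
        (∀ i, ∃ K, LipschitzWith K (g i)) ∧
        Measure.hausdorffMeasure (n : ℝ) (E \ ⋃ i, Set.range (g i)) = 0 := by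
  intro d n hn hnd h E hE _ hfin ⟨C, hC⟩
  exact Pool.Agent.H48.RA.main_all2 hn hnd h hE hfin (B := C) hC

end Pool.Agent.Results.MP_6a587c_an.LowDimensionOrCodimension
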