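import Pool.Agent.RZ.Z2

/-!
The points of positive lower density of a set of finite `n`-dimensional Hausdorff measure with
`L²`-bounded `n`-dimensional Riesz transform form an `n`-rectifiable set, in every codimension.
-/

set_option autoImplicit false

open MeasureTheory Filter Topology Metric Set

namespace Pool.Agent.Results.MP_6a587c_an.PositiveLowerDensity

/-- For `0 < n < d` and compact `E ⊆ ℝ^d` with `0 < H^n(E) < ∞`: if the truncated `n`-dimensional
Riesz transforms of `H^n` restricted to `E` are uniformly bounded on `L²`, then `H^n`-almost all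
points of `E` at which the lower `n`-density of `E` is positive are covered by countably many
Lipschitz images of `ℝ^n`. -/
theorem result :
    ∀ (d n : ℕ), 0 < n → n < d →
    ∀ E : Set (EuclideanSpace ℝ (Fin d)), IsCompact E →
      0 < Measure.hausdorffMeasure (n : ℝ) E →
      Measure.hausdorffMeasure (n : ℝ) E < ⊤ →
      (∃ C : NNReal, ∀ ε : ℝ, 0 < ε → ∀ f : EuclideanSpace ℝ (Fin d) → ℝ,
        MemLp f 2 ((Measure.hausdorffMeasure (n : ℝ)).restrict E) →
        ∫⁻ x, ‖∫ y in {y | ε < dist x y},
              (f y * (‖x - y‖ ^ (n + 1))⁻¹) • (x - y)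
                ∂((Measure.hausdorffMeasure (n : ℝ)).restrict E)‖ₑ ^ 2
            ∂((Measure.hausdorffMeasure (n : ℝ)).restrict E)
          ≤ (C : ENNReal) * ∫⁻ x, ‖f x‖ₑ ^ 2
            ∂((Measure.hausdorffMeasure (n : ℝ)).restrict E)) →
      ∃ g : ℕ → EuclideanSpace ℝ (Fin n) → EuclideanSpace ℝ (Fin d),
        (∀ i, ∃ K, LipschitzWith K (g i)) ∧
        Measure.hausdorffMeasure (n : ℝ)
          ({x ∈ E | 0 < liminf (fun r : ℝ =>
              Measure.hausdorffMeasure (n : ℝ) (E ∩ closedBall x r) / ENNReal.ofReal (r ^ n))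
              (𝓝[>] 0)} \ ⋃ i, Set.range (g i)) = 0 := by
  intro d n hn hnd E hE _ hfin ⟨C, hC⟩
  exact Pool.Agent.RZ.main hn hnd.le hE hfin (B := C) hC

end Pool.Agent.Results.MP_6a587c_an.PositiveLowerDensity
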